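import Pool.Agent.Work.MP_2738db_nt_C.Interface

/-!
# Block FINC: the theorem on coprime exponents
-/

set_option autoImplicit false

namespace Pool.Agent.Work.MP_2738db_nt_C.helper81

open Finset
open Pool.Agent.Work.MP_2738db_nt_C
open Pool.Agent.Work.MP_2738db_nt_ZZ (Pl)

lemma rp1 {κ δ : ℝ} (hκ : 0 < κ) (hδ : 0 < δ) {N : ℕ} (hN : 2 ≤ N) :
    (N : ℝ) ^ (1 - κ) ≤ (δ / κ) ^ δ * (N / Real.log N ^ δ) := by
  have hN1 : (1 : ℝ) < N := by exact_mod_cast hN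
  have hN0 : (0 : ℝ) < N := by linarith
  have hl : 0 < Real.log N := Real.log_pos hN1
  have hkd : 0 < κ / δ := by positivity
  have h1 := Real.log_le_rpow_div hN0.le hkd
  have h2 : Real.log N ^ δ ≤ (N : ℝ) ^ κ * (δ / κ) ^ δ := by
    calc Real.log N ^ δ ≤ ((N : ℝ) ^ (κ / δ) / (κ / δ)) ^ δ :=
          Real.rpow_le_rpow hl.le h1 hδ.le
      _ = ((N : ℝ) ^ (κ / δ) * (δ / κ)) ^ δ := by
          congr 1
          field_simp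
      _ = (N : ℝ) ^ κ * (δ / κ) ^ δ := by
          rw [Real.mul_rpow (by positivity) (by positivity), ← Real.rpow_mul hN0.le,
            div_mul_cancel₀ κ hδ.ne']
  rw [← mul_div_assoc, le_div_iff₀ (Real.rpow_pos_of_pos hl δ)]
  calc (N : ℝ) ^ (1 - κ) * Real.log N ^ δ ≤ (N : ℝ) ^ (1 - κ) * ((N : ℝ) ^ κ * (δ / κ) ^ δ) := by
        gcongr
    _ = (N : ℝ) ^ (1 - κ) * (N : ℝ) ^ κ * (δ / κ) ^ δ := by ring
    _ = (δ / κ) ^ δ * N := by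
        rw [← Real.rpow_add hN0, sub_add_cancel, Real.rpow_one, mul_comm]

lemma rp2 {δ d : ℝ} (hd : δ ≤ d) {N : ℕ} (hN : 2 ≤ N) :
    (N : ℝ) / Real.log N ^ d ≤ Real.log 2 ^ (δ - d) * (N / Real.log N ^ δ) := by
  have hN2 : (2 : ℝ) ≤ N := by exact_mod_cast hN
  have hN0 : (0 : ℝ) < N := by linarith
  have h2 : 0 < Real.log 2 := Real.log_pos (by norm_num)
  have hl : Real.log 2 ≤ Real.log N := Real.log_le_log (by norm_num) hN2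
  have hl0 : 0 < Real.log N := h2.trans_le hl
  have h3 : Real.log N ^ (δ - d) ≤ Real.log 2 ^ (δ - d) :=
    Real.rpow_le_rpow_of_nonpos h2 hl (by linarith)
  have h4 : (N : ℝ) / Real.log N ^ d = Real.log N ^ (δ - d) * (N / Real.log N ^ δ) := by
    rw [Real.rpow_sub hl0]
    have ha : Real.log N ^ δ ≠ 0 := (Real.rpow_pos_of_pos hl0 δ).ne'
    have hb : Real.log N ^ d ≠ 0 := (Real.rpow_pos_of_pos hl0 d).ne'
    field_simp
  rw [h4]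
  gcongr

lemma rp3 {δ d C : ℝ} (hd : δ ≤ d) {N : ℕ} (hN : 2 ≤ N) :
    C * (N : ℝ) / Real.log N ^ d ≤ |C| * Real.log 2 ^ (δ - d) * (N / Real.log N ^ δ) := by
  have h1 := rp2 hd hN
  have hl0 : 0 < Real.log N := Real.log_pos (by exact_mod_cast hN)
  have hl : 0 ≤ (N : ℝ) / Real.log N ^ d := by positivity
  calc C * (N : ℝ) / Real.log N ^ d = C * (N / Real.log N ^ d) := by ring
    _ ≤ |C| * (N / Real.log N ^ d) := by gcongr; exact le_abs_self C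
    _ ≤ |C| * (Real.log 2 ^ (δ - d) * (N / Real.log N ^ δ)) := by gcongr
    _ = |C| * Real.log 2 ^ (δ - d) * (N / Real.log N ^ δ) := by ring

/-- a power with exponent at least `2` is a prime power -/
lemma pw (a m : ℕ) (hm : 2 ≤ m) : ∃ l A : ℕ, l.Prime ∧ a ^ m = A ^ l := by
  refine ⟨m.minFac, a ^ (m / m.minFac), Nat.minFac_prime (by omega), ?_⟩
  rw [← pow_mul, Nat.div_mul_cancel (Nat.minFac_dvd m)]

theorem finc : Pool.Agent.Work.MP_2738db_nt_ZZ.Stmt_ZZ → Pool.Agent.Work.MP_2738db_nt_ZZ.Stmt_P2 →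
    Stmt_Fe → Stmt_Fo → Stmt_CC := by
  rintro ⟨C1, δ1, hδ1, h1⟩ ⟨C2, δ2, hδ2, h2⟩ ⟨C3, κ, hκ, h3⟩ ⟨C4, δ4, hδ4, h4⟩
  obtain ⟨δ, hδ, hd1, hd2, hd4⟩ : ∃ δ : ℝ, 0 < δ ∧ δ ≤ δ1 ∧ δ ≤ δ2 ∧ δ ≤ δ4 :=
    ⟨min δ1 (min δ2 δ4), by positivity, min_le_left _ _,
      (min_le_right _ _).trans (min_le_left _ _), (min_le_right _ _).trans (min_le_right _ _)⟩
  refine ⟨|C1| * Real.log 2 ^ (δ - δ1) + |C2| * Real.log 2 ^ (δ - δ2) + |C3| * (δ / κ) ^ δ +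
    |C4| * Real.log 2 ^ (δ - δ4), δ, hδ, fun N hN => ?_⟩
  have e1 := (h1 N hN).trans (rp3 hd1 hN)
  have e2 := (h2 N hN).trans (rp3 hd2 hN)
  have e4 := (h4 N hN).trans (rp3 hd4 hN)
  have e3 : (({c : ℕ | 1 ≤ c ∧ c ≤ N ∧ 2 ∣ c ∧ D2 c}.ncard : ℕ) : ℝ) ≤
      |C3| * (δ / κ) ^ δ * (N / Real.log N ^ δ) := by
    refine (h3 N (by omega)).trans ?_
    calc C3 * (N : ℝ) ^ (1 - κ) ≤ |C3| * (N : ℝ) ^ (1 - κ) := by
          gcongr; exact le_abs_self C3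
      _ ≤ |C3| * ((δ / κ) ^ δ * (N / Real.log N ^ δ)) := by
          gcongr; exact rp1 hκ hδ hN
      _ = _ := by ring
  set S1 := {c : ℕ | 1 ≤ c ∧ c ≤ N ∧ ∃ a b m n k : ℕ, 1 ≤ a ∧ 1 ≤ b ∧ Nat.Coprime a b ∧ 1 ≤ m ∧
      1 ≤ n ∧ 1 ≤ k ∧ 3 ≤ Nat.gcd m n ∧ (a ^ m + b ^ n = c ^ k ∨ b ^ n + c ^ k = a ^ m)} with hS1
  set S2 := {c : ℕ | 1 ≤ c ∧ c ≤ N ∧ ∃ k : ℕ, 1 ≤ k ∧ Pl 2 c k} with hS2
  set S3 := {c : ℕ | 1 ≤ c ∧ c ≤ N ∧ 2 ∣ c ∧ D2 c} with hS3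
  set S4 := {c : ℕ | 1 ≤ c ∧ c ≤ N ∧ ¬ 2 ∣ c ∧ D2 c} with hS4
  have hfin : (S1 ∪ S2 ∪ S3 ∪ S4).Finite := by
    apply (Set.finite_Icc 1 N).subset
    rintro c (((hc | hc) | hc) | hc) <;> exact ⟨hc.1, hc.2.1⟩
  have hsub : {c : ℕ | 1 ≤ c ∧ c ≤ N ∧ ∃ a b m n k : ℕ, 1 ≤ a ∧ 1 ≤ b ∧ Nat.Coprime a b ∧ 1 ≤ m ∧
      1 ≤ n ∧ 1 ≤ k ∧ 2 ≤ Nat.gcd m n ∧
      (a ^ m + b ^ n = c ^ k ∨ b ^ n + c ^ k = a ^ m ∧ ¬ (m = 2 ∧ n = 2))} ⊆
      S1 ∪ S2 ∪ S3 ∪ S4 := by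
    rintro c ⟨hc1, hcN, a, b, m, n, k, ha, hb, hab, hm, hn, hk, hg, he⟩
    rcases hg.lt_or_eq with hg3 | hg2
    · left; left; left
      refine ⟨hc1, hcN, a, b, m, n, k, ha, hb, hab, hm, hn, hk, hg3, ?_⟩
      rcases he with he | he
      · exact Or.inl he
      · exact Or.inr he.1
    · obtain ⟨m', rfl⟩ : 2 ∣ m := by rw [hg2]; exact Nat.gcd_dvd_left m n
      obtain ⟨n', rfl⟩ : 2 ∣ n := by rw [hg2]; exact Nat.gcd_dvd_right _ n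
      have hx : a ^ (2 * m') = (a ^ m') ^ 2 := by rw [← pow_mul, mul_comm]
      have hy : b ^ (2 * n') = (b ^ n') ^ 2 := by rw [← pow_mul, mul_comm]
      rw [hx, hy] at he
      rcases he with he | ⟨he, hne⟩
      · left; left; right
        exact ⟨hc1, hcN, k, hk, a ^ m', b ^ n', Nat.one_le_pow _ _ ha, Nat.one_le_pow _ _ hb,
          hab.pow _ _, he⟩
      · have hD : D2 c := by
          by_cases hm2 : 2 ≤ m'
          · obtain ⟨l, A, hl, hA⟩ := pw a m' hm2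
            exact ⟨k, a ^ m', b ^ n', l, A, hk, hab.pow _ _, Nat.one_le_pow _ _ hb, hl, he,
              Or.inl hA⟩
          · have hn2 : 2 ≤ n' := by
              by_contra hn2
              exact hne ⟨by omega, by omega⟩
            obtain ⟨l, A, hl, hA⟩ := pw b n' hn2
            exact ⟨k, a ^ m', b ^ n', l, A, hk, hab.pow _ _, Nat.one_le_pow _ _ hb, hl, he,
              Or.inr hA⟩
        by_cases h2c : 2 ∣ c
        · left; right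
          exact ⟨hc1, hcN, h2c, hD⟩
        · right
          exact ⟨hc1, hcN, h2c, hD⟩
  have hcard : (({c : ℕ | 1 ≤ c ∧ c ≤ N ∧ ∃ a b m n k : ℕ, 1 ≤ a ∧ 1 ≤ b ∧ Nat.Coprime a b ∧
      1 ≤ m ∧ 1 ≤ n ∧ 1 ≤ k ∧ 2 ≤ Nat.gcd m n ∧
      (a ^ m + b ^ n = c ^ k ∨ b ^ n + c ^ k = a ^ m ∧ ¬ (m = 2 ∧ n = 2))}.ncard : ℕ) : ℝ) ≤
      (S1.ncard : ℝ) + S2.ncard + S3.ncard + S4.ncard := by
    have hle := (Set.ncard_le_ncard hsub hfin).trans ((Set.ncard_union_le _ _).trans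
      (Nat.add_le_add_right ((Set.ncard_union_le _ _).trans
        (Nat.add_le_add_right (Set.ncard_union_le _ _) _)) _))
    exact_mod_cast hle
  calc _ ≤ (S1.ncard : ℝ) + S2.ncard + S3.ncard + S4.ncard := hcard
    _ ≤ |C1| * Real.log 2 ^ (δ - δ1) * (N / Real.log N ^ δ) +
        |C2| * Real.log 2 ^ (δ - δ2) * (N / Real.log N ^ δ) +
        |C3| * (δ / κ) ^ δ * (N / Real.log N ^ δ) +
        |C4| * Real.log 2 ^ (δ - δ4) * (N / Real.log N ^ δ) := by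
        gcongr
    _ = _ := by ring

end Pool.Agent.Work.MP_2738db_nt_C.helper81
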