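import Pool.Agent.Work.MP_2738db_nt_C.Interface
import Pool.Agent.Work.MP_b0c12c_nt_helper41.Mert

/-!
# Block MER: Mertens' theorem
-/

set_option autoImplicit false

namespace Pool.Agent.Work.MP_2738db_nt_C.helper81

open Finset
open Pool.Agent.Work.MP_2738db_nt_C

theorem mer : Stmt_Mer := by
  obtain ⟨C, hC, h⟩ := Pool.Agent.Work.MP_b0c12c_nt_helper41.mertens2
  have h2 : 0 < Real.log 2 := Real.log_pos (by norm_num)
  refine ⟨1 + C / Real.log 2 + |Real.log (Real.log 2)|, ?_, fun z hz => ?_⟩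
  · have : 0 ≤ C / Real.log 2 := by positivity
    have := abs_nonneg (Real.log (Real.log 2))
    linarith
  have h3 := h 2 z le_rfl hz
  have h4 : (Icc 1 z).filter Nat.Prime = insert 2 ((Ioc 2 z).filter Nat.Prime) := by
    ext p
    simp only [mem_filter, mem_Icc, mem_insert, mem_Ioc]
    constructor
    · rintro ⟨⟨_, hb⟩, hp⟩
      rcases hp.two_le.lt_or_eq with hlt | heq
      · exact Or.inr ⟨⟨hlt, hb⟩, hp⟩
      · exact Or.inl heq.symm
    · rintro (rfl | ⟨⟨ha, hb⟩, hp⟩)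
      · exact ⟨⟨by norm_num, hz⟩, Nat.prime_two⟩
      · exact ⟨⟨by omega, hb⟩, hp⟩
  have h5 : (2 : ℕ) ∉ (Ioc 2 z).filter Nat.Prime := by simp
  rw [h4, sum_insert h5]
  push_cast at h3 ⊢
  rw [abs_le] at h3 ⊢
  have h6 := neg_abs_le (Real.log (Real.log 2))
  have h7 := le_abs_self (Real.log (Real.log 2))
  constructor <;> linarith [h3.1, h3.2]

end Pool.Agent.Work.MP_2738db_nt_C.helper81
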