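import Pool.Agent.Work.MP_2738db_nt_C_helper81.FINC
import Pool.Agent.Work.MP_2738db_nt_ZZ_helper16.CE

/-!
# Block M2: differences of two coprime squares, one of which is a higher power
-/

set_option autoImplicit false

namespace Pool.Agent.Work.MP_2738db_nt_C.helper81

open Finset
open Pool.Agent.Work.MP_2738db_nt_C
open Pool.Agent.Work.MP_2738db_nt_ZZ.helper16 (Stmt_M2)

theorem m2 : Stmt_Fe → Stmt_Fo → Stmt_M2 := by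
  rintro ⟨C3, κ, hκ, h3⟩ ⟨C4, δ, hδ, h4⟩
  refine ⟨|C3| * (δ / κ) ^ δ + C4, δ, hδ, fun N hN => ?_⟩
  have e4 := h4 N hN
  have e3 : (({c : ℕ | 1 ≤ c ∧ c ≤ N ∧ 2 ∣ c ∧ D2 c}.ncard : ℕ) : ℝ) ≤
      |C3| * (δ / κ) ^ δ * (N / Real.log N ^ δ) := by
    refine (h3 N (by omega)).trans ?_
    calc C3 * (N : ℝ) ^ (1 - κ) ≤ |C3| * (N : ℝ) ^ (1 - κ) := by
          gcongr; exact le_abs_self C3
      _ ≤ |C3| * ((δ / κ) ^ δ * (N / Real.log N ^ δ)) := by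
          gcongr; exact rp1 hκ hδ hN
      _ = _ := by ring
  set S3 := {c : ℕ | 1 ≤ c ∧ c ≤ N ∧ 2 ∣ c ∧ D2 c} with hS3
  set S4 := {c : ℕ | 1 ≤ c ∧ c ≤ N ∧ ¬ 2 ∣ c ∧ D2 c} with hS4
  have hfin : (S3 ∪ S4).Finite := by
    apply (Set.finite_Icc 1 N).subset
    rintro c (hc | hc) <;> exact ⟨hc.1, hc.2.1⟩
  have hsub : {c : ℕ | 1 ≤ c ∧ c ≤ N ∧ ∃ k X Y l z : ℕ, 1 ≤ k ∧ 1 ≤ Y ∧ Nat.Coprime X Y ∧
      l.Prime ∧ Y ^ 2 + c ^ k = X ^ 2 ∧ (X = z ^ l ∨ Y = z ^ l)} ⊆ S3 ∪ S4 := by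
    rintro c ⟨hc1, hcN, k, X, Y, l, z, hk, hY, hXY, hl, he, hz⟩
    have hD : D2 c := ⟨k, X, Y, l, z, hk, hXY, hY, hl, he, hz⟩
    by_cases h2c : 2 ∣ c
    · left
      exact ⟨hc1, hcN, h2c, hD⟩
    · right
      exact ⟨hc1, hcN, h2c, hD⟩
  have hcard : (({c : ℕ | 1 ≤ c ∧ c ≤ N ∧ ∃ k X Y l z : ℕ, 1 ≤ k ∧ 1 ≤ Y ∧ Nat.Coprime X Y ∧
      l.Prime ∧ Y ^ 2 + c ^ k = X ^ 2 ∧ (X = z ^ l ∨ Y = z ^ l)}.ncard : ℕ) : ℝ) ≤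
      (S3.ncard : ℝ) + S4.ncard := by
    have hle := (Set.ncard_le_ncard hsub hfin).trans (Set.ncard_union_le _ _)
    exact_mod_cast hle
  calc _ ≤ (S3.ncard : ℝ) + S4.ncard := hcard
    _ ≤ |C3| * (δ / κ) ^ δ * (N / Real.log N ^ δ) + C4 * N / Real.log N ^ δ := by
        gcongr
    _ = _ := by ring

end Pool.Agent.Work.MP_2738db_nt_C.helper81
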